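import Pool.Agent.Lib.MP_8848fa_gt.Assembly
import Pool.Agent.Lib.MP_8848fa_gt.StepB

set_option autoImplicit false

namespace Pool.Agent.Results.MP_8848fa_gt.ClosedDimensions

open Set Topology

universe u

/-- `IndLT n X`: the large inductive dimension of the topological space `X` is less than `n`.
`Ind X < 0` means that `X` is empty (`Ind ∅ = -1`); `Ind X < n + 1` (that is `Ind X ≤ n`) means that for
every closed `A` and every open `V ⊇ A` there is an open `U` with `A ⊆ U ⊆ closure U ⊆ V` such that the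
subspace `closure U \ U` has large inductive dimension less than `n`. -/
def IndLT : ℕ → ∀ (X : Type u) [TopologicalSpace X], Prop
  | 0, X, _ => IsEmpty X
  | n + 1, X, _ => ∀ A V : Set X, IsClosed A → IsOpen V → A ⊆ V →
      ∃ U : Set X, IsOpen U ∧ A ⊆ U ∧ closure U ⊆ V ∧ IndLT n ↥(closure U \ U)

/-- `Ind X = n`. -/
def IndEq (n : ℕ) (X : Type u) [TopologicalSpace X] : Prop := IndLT (n + 1) X ∧ ¬ IndLT n X

/-- `Ind X = ∞`. -/
def IndInfinite (X : Type u) [TopologicalSpace X] : Prop := ∀ n : ℕ, ¬ IndLT n X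

/-- `X` is countable-dimensional: it is the union of countably many subspaces of finite large
inductive dimension. -/
def CountableDimensional (X : Type u) [TopologicalSpace X] : Prop :=
  ∃ Z : ℕ → Set X, (∀ i, ∃ n, IndLT n ↥(Z i)) ∧ (⋃ i, Z i) = univ

theorem homeo : ∀ (n : ℕ) {X Y : Type u} [TopologicalSpace X] [TopologicalSpace Y],
    (X ≃ₜ Y) → IndLT n X → IndLT n Y
  | 0, X, Y, _, _, e, h => by
    have h' : IsEmpty X := h
    show IsEmpty Y
    exact e.symm.toEquiv.isEmpty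
  | n + 1, X, Y, _, _, e, h => by
    intro A V hA hV hAV
    obtain ⟨U, hU, h1, h2, h3⟩ := h (e ⁻¹' A) (e ⁻¹' V) (hA.preimage e.continuous)
      (hV.preimage e.continuous) (preimage_mono hAV)
    refine ⟨e '' U, e.isOpenMap U hU, ?_, ?_, ?_⟩
    · intro y hy
      exact ⟨e.symm y, h1 (by simpa using hy), by simp⟩
    · rw [← e.image_closure]
      rintro _ ⟨x, hx, rfl⟩
      exact h2 hx
    · have hs : e '' (closure U \ U) = closure (e '' U) \ e '' U := by
        rw [image_sdiff e.injective, e.image_closure]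
      exact homeo n ((e.image (closure U \ U)).trans (Homeomorph.setCongr hs)) h3

/-- the recursion for subspaces, in terms of the ambient space -/
theorem sub_iff {X : Type u} [TopologicalSpace X] (k : ℕ) (B : Set X) :
    IndLT (k + 1) ↥B ↔ ∀ C U : Set X, IsClosed C → IsOpen U → C ∩ B ⊆ U →
      ∃ V : Set X, IsOpen V ∧ C ∩ B ⊆ V ∧ closure (V ∩ B) ∩ B ⊆ U ∧
        IndLT k ↥((closure (V ∩ B) ∩ B) \ V) := by
  have key : ∀ V : Set X, Subtype.val '' (closure (Subtype.val ⁻¹' V : Set ↥B) \ Subtype.val ⁻¹' V)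
      = (closure (V ∩ B) ∩ B) \ V := by
    intro V
    have hV : Subtype.val '' (Subtype.val ⁻¹' V : Set ↥B) = V ∩ B := by
      rw [Subtype.image_preimage_coe, inter_comm]
    ext x
    constructor
    · rintro ⟨⟨y, hy⟩, ⟨h1, h2⟩, rfl⟩
      rw [closure_subtype, hV] at h1
      exact ⟨⟨h1, hy⟩, h2⟩
    · rintro ⟨⟨h1, hy⟩, h2⟩
      refine ⟨⟨x, hy⟩, ⟨?_, h2⟩, rfl⟩
      rw [closure_subtype, hV]
      exact h1
  constructor
  · intro h C U hC hU hCU
    obtain ⟨W, hW, h1, h2, h3⟩ := h (Subtype.val ⁻¹' C) (Subtype.val ⁻¹' U)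
      (hC.preimage continuous_subtype_val) (hU.preimage continuous_subtype_val)
      (fun x hx => hCU ⟨hx, x.2⟩)
    obtain ⟨V, hV, rfl⟩ := isOpen_induced_iff.1 hW
    refine ⟨V, hV, fun x hx => h1 (a := ⟨x, hx.2⟩) hx.1, ?_, ?_⟩
    · rintro x ⟨hx, hxB⟩
      have : (⟨x, hxB⟩ : ↥B) ∈ closure (Subtype.val ⁻¹' V : Set ↥B) := by
        rw [closure_subtype, Subtype.image_preimage_coe, inter_comm]
        exact hx
      exact h2 this
    · exact homeo k ((IsEmbedding.subtypeVal.homeomorphImage _).trans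
        (Homeomorph.setCongr (key V))) h3
  · intro h A W hA hW hAW
    obtain ⟨C, hC, rfl⟩ := isClosed_induced_iff.1 hA
    obtain ⟨U, hU, rfl⟩ := isOpen_induced_iff.1 hW
    obtain ⟨V, hV, h1, h2, h3⟩ := h C U hC hU (fun x hx => hAW (a := ⟨x, hx.2⟩) hx.1)
    refine ⟨Subtype.val ⁻¹' V, hV.preimage continuous_subtype_val, fun x hx => h1 ⟨hx, x.2⟩, ?_, ?_⟩
    · intro x hx
      rw [closure_subtype, Subtype.image_preimage_coe, inter_comm] at hx
      exact h2 ⟨hx, x.2⟩
    · exact homeo k ((IsEmbedding.subtypeVal.homeomorphImage _).trans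
        (Homeomorph.setCongr (key V))).symm h3

theorem isInd {X : Type} [TopologicalSpace X] :
    Pool.Agent.ZD8848.IsInd (fun (n : ℕ) (B : Set X) => IndLT n ↥B) := by
  refine ⟨fun B => ?_, fun k B => sub_iff k B⟩
  show IsEmpty ↥B ↔ B = ∅
  exact isEmpty_coe_sort

theorem exists_space_zero : ∃ X : Set (ℕ → ℝ), ∀ P : ℕ → Set X → Prop,
    Pool.Agent.ZD8848.IsInd P →
      (∃ Z : ℕ → Set X, (∀ i, P 1 (Z i)) ∧ (⋃ i, Z i) = Set.univ) ∧
      (∀ k : ℕ, ¬ P k Set.univ) ∧ ∀ A : Set X, IsClosed A → P 2 A → P 1 A := by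
  obtain ⟨T, hT⟩ := Pool.Agent.ZD8848.exists_TSet
  have hY := Pool.Agent.ZD8848.not_dd hT
  obtain ⟨X, hXY, hX1, hX2⟩ := Pool.Agent.ZD8848.exists_X hT hY
  refine ⟨X, fun P hP => ⟨?_, ?_, Pool.Agent.ZD8848.two_to_one hX1 hX2 hP⟩⟩
  · obtain ⟨e, he⟩ := exists_surjective_nat (Finset ℕ)
    refine ⟨fun n => {x : X | {i | x.1 i ∈ T} = (e n : Set ℕ)}, fun n => ?_, ?_⟩
    · rw [hP.one_iff]
      apply Pool.Agent.ZD8848.rz_of_image
      refine ((Pool.Agent.ZD8848.sz_pattern hT (e n)).mono ?_).rz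
      rintro _ ⟨x, hx, rfl⟩
      exact hx
    · apply Set.eq_univ_of_forall
      intro x
      have hfin := (hXY x.2).2
      obtain ⟨n, hn⟩ := he hfin.toFinset
      refine mem_iUnion.2 ⟨n, ?_⟩
      show {i | x.1 i ∈ T} = (e n : Set ℕ)
      rw [hn, Set.Finite.coe_toFinset]
  · intro k hk
    have h1 : P 1 Set.univ :=
      hP.collapse (Pool.Agent.ZD8848.two_to_one hX1 hX2 hP) k _ isClosed_univ hk
    rw [hP.one_iff] at h1
    have h2 : Pool.Agent.ZD8848.DD (Pool.Agent.ZD8848.YY T)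
        (closure (Subtype.val '' (Set.univ : Set X))) := by
      refine Pool.Agent.ZD8848.small_closure hX2 (A1 := Set.univ) isClosed_univ (fun _ => ∅)
        (fun x hx => Or.inl hx) ?_ h1
      intro j
      rw [Set.image_empty, closure_empty]
      exact Pool.Agent.ZD8848.DD.empty
    obtain ⟨x, hxX, -, hx⟩ := hX2 Pool.Agent.ZD8848.KW
      (fun _ => closure (Subtype.val '' (Set.univ : Set X)))
      Pool.Agent.ZD8848.isCompact_KW.isClosed hY (fun _ => h2)
    exact hx 0 (subset_closure ⟨⟨x, hxX⟩, Set.mem_univ _, rfl⟩)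

theorem succ_of : ∀ (n : ℕ) {X : Type u} [TopologicalSpace X], IndLT n X → IndLT (n + 1) X
  | 0, X, _, h => by
    intro A V _ _ _
    have h' : IsEmpty X := h
    refine ⟨∅, isOpen_empty, fun x _ => (h'.false x).elim, fun x _ => (h'.false x).elim, ?_⟩
    show IsEmpty ↥(closure (∅ : Set X) \ ∅)
    exact ⟨fun x => h'.false x.1⟩
  | n + 1, X, _, h => by
    intro A V hA hV hAV
    obtain ⟨U, hU, h1, h2, h3⟩ := h A V hA hV hAV
    exact ⟨U, hU, h1, h2, succ_of n h3⟩

theorem of_one : ∀ (n : ℕ), 1 ≤ n → ∀ {X : Type u} [TopologicalSpace X], IndLT 1 X → IndLT n X := by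
  intro n hn
  induction n, hn using Nat.le_induction with
  | base => exact fun h => h
  | succ n _ ih => exact fun h => succ_of n (ih h)

/-- There is a countable-dimensional separable metric space `X` with `Ind X = ∞`, even a countable
union of subspaces of dimension at most `0`, all of whose closed subspaces have dimension `-1`, `0` or
`∞`; in particular, for no `n ≥ 1` is there a closed subspace of dimension `n`. -/
theorem result : ∃ (X : Type) (_ : MetricSpace X), TopologicalSpace.SeparableSpace X ∧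
    CountableDimensional X ∧
    (∃ Z : ℕ → Set X, (∀ i, IndLT 1 ↥(Z i)) ∧ (⋃ i, Z i) = univ) ∧
    IndInfinite X ∧
    (∀ A : Set X, IsClosed A → IndLT 1 ↥A ∨ IndInfinite ↥A) ∧
    ∀ n : ℕ, 1 ≤ n → ¬ ∃ A : Set X, IsClosed A ∧ IndEq n ↥A := by
  obtain ⟨X, hX⟩ := exists_space_zero
  obtain ⟨⟨Z, hZ1, hZ2⟩, h2, h3⟩ := hX _ isInd
  have hcol : ∀ (k : ℕ) (A : Set X), IsClosed A → IndLT k ↥A → IndLT 1 ↥A :=
    (isInd (X := X)).collapse h3
  refine ⟨X, TopologicalSpace.metrizableSpaceMetric X, inferInstance, ⟨Z, fun i => ⟨1, hZ1 i⟩, hZ2⟩,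
    ⟨Z, hZ1, hZ2⟩, ?_, ?_, ?_⟩
  · intro n hn
    exact h2 n (homeo n (Homeomorph.Set.univ X).symm hn)
  · intro A hA
    by_cases h : ∃ n, IndLT n ↥A
    · obtain ⟨n, hn⟩ := h
      exact Or.inl (hcol n A hA hn)
    · exact Or.inr fun n hn => h ⟨n, hn⟩
  · rintro n hn ⟨A, hA, hA1, hA2⟩
    exact hA2 (of_one n hn (hcol _ A hA hA1))

end Pool.Agent.Results.MP_8848fa_gt.ClosedDimensions
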